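import Pool.Agent.Helper865.EulerBesov.Sanity

set_option autoImplicit false

open Set
open scoped ContDiff ENNReal

namespace Pool.Agent.Results.MP_f6d183_an.IllPosed

open Pool.Agent.Helper865.EulerBesov

/-- The Littlewood–Paley cutoffs used in the statement exist. -/
theorem cutoff_exists (n : ℕ) : ∃ χ : E n → ℝ, IsCutoff χ := exists_isCutoff n

/-- Sanity check: rough divergence-free data with global (steady shear flow) solutions. -/
theorem solution_exists (d : ℕ) (χ : E (d + 2) → ℝ) (hχ : IsCutoff χ) (q : ℝ) (hq : 1 < q) :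
    ∃ u₀ : E (d + 2) → E (d + 2), MemBesov χ q u₀ ∧ DivFree u₀ ∧
      ∀ T, IsSolution χ q T u₀ (fun _ => u₀) :=
  ⟨UInf d, memBesov_UInf hχ hq, divFree_UInf, fun T => isSolution_UInf hχ hq T⟩

/-- For all `n ≥ 2` and `1 < q < ∞` the incompressible Euler equations are ill-posed in
`B¹_{∞,q}(ℝⁿ)`. More precisely, continuous dependence fails by norm inflation: there is a
divergence-free datum `u₀` such that for every time `t > 0`, every `δ > 0` and every finite `R`
there is a smooth divergence-free datum `v₀` with `‖v₀ - u₀‖ < δ` such that, if `u` is the unique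
solution in `C([0,t]; B¹_{∞,q})` with datum `v₀`, then `‖u(t)‖ > R`. -/
theorem result (n : ℕ) (hn : 2 ≤ n) (χ : E n → ℝ) (hχ : IsCutoff χ) (q : ℝ) (hq : 1 < q) :
    ¬ LocallyWellPosed χ q ∧
    ∃ u₀ : E n → E n, MemBesov χ q u₀ ∧ DivFree u₀ ∧
      ∀ (t : ℝ) (δ R : ℝ≥0∞), 0 < t → 0 < δ → R < ⊤ →
        ∃ v₀ : E n → E n, ContDiff ℝ ∞ v₀ ∧ MemBesov χ q v₀ ∧ DivFree v₀ ∧
          besovNorm χ q (v₀ - u₀) < δ ∧
          ∀ u : ℝ → E n → E n, IsSolution χ q t v₀ u →
            (∀ v, IsSolution χ q t v₀ v → ∀ s ∈ Icc 0 t, v s = u s) →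
              R < besovNorm χ q (u t) := by
  obtain ⟨d, rfl⟩ : ∃ d, n = d + 2 := ⟨n - 2, by omega⟩
  exact ⟨not_locallyWellPosed hχ hq, UInf d, memBesov_UInf hχ hq, divFree_UInf,
    fun t δ R ht hδ hR => norm_inflation hχ hq ht hδ hR⟩

end Pool.Agent.Results.MP_f6d183_an.IllPosed
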